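import Mathlib

namespace Pool.Agent.Results.MP_716318_co.SixPoints

open Finset

theorem result : ∃ F : Finset (Finset (Fin 6)),
    (∀ A ∈ F, A.card = 4) ∧ F.card < Nat.choose (6 - 2) 2 ∧
    ∀ v : Fin 6 ≃ Fin 6, ∃ i j : Fin 5, i.val + 1 < j.val ∧
      ({v i.castSucc, v i.succ} : Finset (Fin 6)) ∪ {v j.castSucc, v j.succ} ∈ F := by
  refine ⟨powersetCard 4 (univ.erase 0), fun A hA => (mem_powersetCard.1 hA).2, by decide, ?_⟩
  intro v
  have key : ∀ i j : Fin 5, i.val + 1 < j.val → v.symm 0 ≠ i.castSucc → v.symm 0 ≠ i.succ →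
      v.symm 0 ≠ j.castSucc → v.symm 0 ≠ j.succ →
      ({v i.castSucc, v i.succ} : Finset (Fin 6)) ∪ {v j.castSucc, v j.succ} ∈
        powersetCard 4 (univ.erase (0 : Fin 6)) := by
    intro i j hij h1 h2 h3 h4
    rw [mem_powersetCard]
    constructor
    · intro x hx
      simp only [mem_union, mem_insert, mem_singleton] at hx
      rw [mem_erase]
      refine ⟨?_, mem_univ _⟩
      rintro rfl
      rcases hx with (h | h) | h | h
      · exact h1 (by rw [h]; simp)
      · exact h2 (by rw [h]; simp)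
      · exact h3 (by rw [h]; simp)
      · exact h4 (by rw [h]; simp)
    · have : ({v i.castSucc, v i.succ} : Finset (Fin 6)) ∪ {v j.castSucc, v j.succ} =
          (({i.castSucc, i.succ} : Finset (Fin 6)) ∪ {j.castSucc, j.succ}).map v.toEmbedding := by
        simp
      rw [this, card_map]
      clear this h1 h2 h3 h4
      revert i j
      decide
  have : ∀ p : Fin 6, ∃ i j : Fin 5, i.val + 1 < j.val ∧ p ≠ i.castSucc ∧ p ≠ i.succ ∧
      p ≠ j.castSucc ∧ p ≠ j.succ := by decide
  obtain ⟨i, j, h, h1, h2, h3, h4⟩ := this (v.symm 0)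
  exact ⟨i, j, h, key i j h h1 h2 h3 h4⟩

end Pool.Agent.Results.MP_716318_co.SixPoints
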